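import Mathlib

/-!
# MP_41928e_lc: a layered interdiction game without Markovian Nash equilibrium

We give a layered graph with 5 layers, 11 vertices, 15 edges and 11 paths in which the game
(both players choose paths of the same graph, attacker payoff `1` exactly when the two paths share
no edge) has no Markovian Nash equilibrium: in every Nash equilibrium neither of the two
strategies is Markovian.
-/

namespace Pool.Agent.Results.MP_41928e_lc.NoMarkovian

open scoped BigOperators

/-- A layered graph with layers `0, …, L` (`L ≥ 1`, all non-empty, layer `0` is the single source)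
in which every edge goes from a layer to the next one. -/
structure LayeredGraph where
  L : ℕ
  hL : 1 ≤ L
  V : Type
  instV : Fintype V
  layer : V → Fin (L + 1)
  Adj : V → V → Prop
  adj_layer : ∀ u v, Adj u v → (layer v : ℕ) = layer u + 1
  layer_surj : Function.Surjective layer
  s : V
  layer_s : layer s = 0
  source_unique : ∀ v, layer v = 0 → v = s

attribute [instance] LayeredGraph.instV

namespace LayeredGraph

variable (G : LayeredGraph)

/-- A path: a directed path from the source to a vertex of the last layer (position `i` of the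
path is its vertex in layer `i`). -/
def Path : Type :=
  {p : Fin (G.L + 1) → G.V // p 0 = G.s ∧ ∀ i : Fin G.L, G.Adj (p i.castSucc) (p i.succ)}

noncomputable instance : Fintype G.Path := by
  classical
  unfold Path
  exact Fintype.ofFinite _

/-- the two paths have an edge in common -/
def Share (p q : G.Path) : Prop :=
  ∃ i : Fin G.L, p.1 i.castSucc = q.1 i.castSucc ∧ p.1 i.succ = q.1 i.succ

open Classical in
/-- the attacker's payoff for pure strategies -/
noncomputable def pay (p q : G.Path) : ℝ := if G.Share p q then 0 else 1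

/-- a mixed strategy -/
def IsMixed (x : G.Path → ℝ) : Prop := (∀ p, 0 ≤ x p) ∧ ∑ p, x p = 1

/-- the attacker's expected payoff (the defender's is its negative) -/
noncomputable def payoff (xd xa : G.Path → ℝ) : ℝ := ∑ p, ∑ q, xd p * xa q * G.pay p q

/-- Nash equilibrium -/
def IsNE (xd xa : G.Path → ℝ) : Prop :=
  G.IsMixed xd ∧ G.IsMixed xa ∧
    (∀ ya, G.IsMixed ya → G.payoff xd ya ≤ G.payoff xd xa) ∧
    (∀ yd, G.IsMixed yd → G.payoff xd xa ≤ G.payoff yd xa)

open Classical in
/-- Markovian mixed strategy: there are transition probabilities `q u v` (non-negative, summing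
to `1` over the out-edges of every vertex that has out-edges and is reached), and every path has
the product of its transition probabilities as its probability. -/
def IsMarkovian (x : G.Path → ℝ) : Prop :=
  ∃ q : G.V → G.V → ℝ, (∀ u v, 0 ≤ q u v) ∧
    (∀ u, (∃ v, G.Adj u v) → (∃ p : G.Path, 0 < x p ∧ ∃ i, p.1 i = u) →
      ∑ v ∈ Finset.univ.filter (fun v => G.Adj u v), q u v = 1) ∧
    ∀ p : G.Path, x p = ∏ i : Fin G.L, q (p.1 i.castSucc) (p.1 i.succ)

end LayeredGraph

open LayeredGraph

/-- the adjacency of the example -/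
def adj (u v : Fin 11) : Bool :=
  (u, v) ∈ ([(0, 1), (0, 2), (0, 3), (1, 5), (2, 5), (2, 6), (3, 4), (4, 7), (4, 8), (5, 7),
    (5, 8), (6, 7), (7, 9), (7, 10), (8, 9)] : List (Fin 11 × Fin 11))

def lay : Fin 11 → Fin 5 := ![0, 1, 1, 1, 2, 2, 2, 3, 3, 4, 4]

/-- the example -/
def G0 : LayeredGraph where
  L := 4
  hL := by norm_num
  V := Fin 11
  instV := inferInstance
  layer := lay
  Adj u v := adj u v = true
  adj_layer := by decide
  layer_surj := by decide
  s := 0
  layer_s := by decide
  source_unique := by decide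

/-- the eleven paths -/
def pts : Fin 11 → Fin 5 → Fin 11 :=
  ![![0, 1, 5, 7, 9], ![0, 1, 5, 7, 10], ![0, 1, 5, 8, 9], ![0, 2, 5, 7, 9], ![0, 2, 5, 7, 10],
    ![0, 2, 5, 8, 9], ![0, 2, 6, 7, 9], ![0, 2, 6, 7, 10], ![0, 3, 4, 7, 9], ![0, 3, 4, 7, 10],
    ![0, 3, 4, 8, 9]]

theorem pts_valid : ∀ k : Fin 11, pts k 0 = 0 ∧
    ∀ i : Fin 4, adj (pts k i.castSucc) (pts k i.succ) = true := by decide

theorem pts_inj : Function.Injective pts := by decide

theorem pts_surj : ∀ b : Fin 11, adj 0 b = true → ∀ c, adj b c = true → ∀ d, adj c d = true →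
    ∀ e, adj d e = true →
    ∃ k : Fin 11, pts k 0 = 0 ∧ pts k 1 = b ∧ pts k 2 = c ∧ pts k 3 = d ∧ pts k 4 = e := by
  decide +kernel

def e (k : Fin 11) : G0.Path := ⟨pts k, pts_valid k⟩

theorem e_bij : Function.Bijective e := by
  constructor
  · intro a b h
    exact pts_inj (congrArg Subtype.val h)
  · rintro ⟨p, hp0, hp⟩
    have h0 : p 0 = (0 : Fin 11) := hp0
    have h1 : adj (p 0) (p 1) = true := hp (0 : Fin 4)
    have h2 : adj (p 1) (p 2) = true := hp (1 : Fin 4)
    have h3 : adj (p 2) (p 3) = true := hp (2 : Fin 4)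
    have h4 : adj (p 3) (p 4) = true := hp (3 : Fin 4)
    rw [h0] at h1
    obtain ⟨k, k0, k1, k2, k3, k4⟩ := pts_surj _ h1 _ h2 _ h3 _ h4
    refine ⟨k, Subtype.ext ?_⟩
    show pts k = p
    funext i
    have hi : ∀ i : Fin 5, i = 0 ∨ i = 1 ∨ i = 2 ∨ i = 3 ∨ i = 4 := by decide
    rcases hi i with rfl | rfl | rfl | rfl | rfl
    · rw [k0]; exact h0.symm
    · exact k1
    · exact k2
    · exact k3
    · exact k4

noncomputable def E : Fin 11 ≃ G0.Path := Equiv.ofBijective e e_bij

/-- payoff matrix -/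
def A (k l : Fin 11) : Bool :=
  decide (∀ i : Fin 4, ¬ (pts k i.castSucc = pts l i.castSucc ∧ pts k i.succ = pts l i.succ))

theorem pay_eq (k l : Fin 11) : G0.pay (e k) (e l) = if A k l = true then 1 else 0 := by
  unfold LayeredGraph.pay
  by_cases h : G0.Share (e k) (e l)
  · have : ¬ A k l = true := by
      unfold A
      rw [decide_eq_true_eq]
      obtain ⟨i, hi⟩ := h
      exact fun hh => hh i hi
    simp [h, this]
  · have : A k l = true := by
      unfold A
      rw [decide_eq_true_eq]
      intro i hi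
      exact h ⟨i, hi⟩
    simp [h, this]

/-- value of a pure strategy (row) against a mixed one -/
noncomputable def row (x : Fin 11 → ℝ) (k : Fin 11) : ℝ := ∑ l, if A k l = true then x l else 0

theorem A_symm : ∀ k l, A k l = A l k := by decide +kernel

theorem payoff_eq (xd xa : G0.Path → ℝ) :
    G0.payoff xd xa = ∑ k, xd (e k) * row (fun l => xa (e l)) k := by
  unfold LayeredGraph.payoff
  rw [← E.sum_comp (fun p => ∑ q, xd p * xa q * G0.pay p q)]
  apply Finset.sum_congr rfl
  intro k _
  rw [← E.sum_comp (fun q => xd (E k) * xa q * G0.pay (E k) q)]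
  unfold row
  rw [Finset.mul_sum]
  apply Finset.sum_congr rfl
  intro l _
  show xd (e k) * xa (e l) * G0.pay (e k) (e l) = _
  rw [pay_eq]
  split_ifs <;> simp

theorem payoff_eq' (xd xa : G0.Path → ℝ) :
    G0.payoff xd xa = ∑ k, xa (e k) * row (fun l => xd (e l)) k := by
  rw [payoff_eq]
  unfold row
  simp only [Finset.mul_sum]
  rw [Finset.sum_comm]
  apply Finset.sum_congr rfl
  intro k _
  apply Finset.sum_congr rfl
  intro l _
  rw [A_symm l k]
  split_ifs <;> ring

/-- pull a vector back to a strategy -/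
noncomputable def strat (z : Fin 11 → ℝ) : G0.Path → ℝ := fun p => z (E.symm p)

theorem strat_e (z : Fin 11 → ℝ) (k : Fin 11) : strat z (e k) = z k := by
  show z (E.symm (E k)) = z k
  rw [Equiv.symm_apply_apply]

theorem mixed_strat (z : Fin 11 → ℝ) (h0 : ∀ k, 0 ≤ z k) (h1 : ∑ k, z k = 1) :
    G0.IsMixed (strat z) := by
  refine ⟨fun p => h0 _, ?_⟩
  rw [← E.sum_comp (strat z)]
  rw [← h1]
  apply Finset.sum_congr rfl
  intro k _
  exact strat_e z k

theorem mixed_sum (x : G0.Path → ℝ) (h : G0.IsMixed x) : ∑ k, x (e k) = 1 := by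
  rw [← h.2, ← E.sum_comp x]
  rfl

noncomputable def zA : Fin 11 → ℝ :=
  ![2 / 19, 2 / 19, 3 / 19, 0, 0, 1 / 19, 2 / 19, 2 / 19, 2 / 19, 2 / 19, 3 / 19]

noncomputable def zD : Fin 11 → ℝ :=
  ![2 / 19, 2 / 19, 1 / 19, 2 / 19, 2 / 19, 3 / 19, 0, 0, 2 / 19, 2 / 19, 3 / 19]

theorem row_expand (x : Fin 11 → ℝ) :
    row x 0 = x 5 + x 7 + x 9 + x 10 ∧
    row x 1 = x 5 + x 6 + x 8 + x 10 ∧
    row x 2 = x 3 + x 4 + x 6 + x 7 + x 8 + x 9 ∧
    row x 3 = x 2 + x 9 + x 10 ∧
    row x 4 = x 2 + x 8 + x 10 ∧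
    row x 5 = x 0 + x 1 + x 8 + x 9 ∧
    row x 6 = x 1 + x 2 + x 9 + x 10 ∧
    row x 7 = x 0 + x 2 + x 8 + x 10 ∧
    row x 8 = x 1 + x 2 + x 4 + x 5 + x 7 ∧
    row x 9 = x 0 + x 2 + x 3 + x 5 + x 6 ∧
    row x 10 = x 0 + x 1 + x 3 + x 4 + x 6 + x 7 := by
  have hA : ∀ k l : Fin 11, A k l = (![![false, false, false, false, false, true, false, true, false, true, true],
      ![false, false, false, false, false, true, true, false, true, false, true],
      ![false, false, false, true, true, false, true, true, true, true, false],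
      ![false, false, true, false, false, false, false, false, false, true, true],
      ![false, false, true, false, false, false, false, false, true, false, true],
      ![true, true, false, false, false, false, false, false, true, true, false],
      ![false, true, true, false, false, false, false, false, false, true, true],
      ![true, false, true, false, false, false, false, false, true, false, true],
      ![false, true, true, false, true, true, false, true, false, false, false],
      ![true, false, true, true, false, true, true, false, false, false, false],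
      ![true, true, false, true, true, false, true, true, false, false, false]] :
        Fin 11 → Fin 11 → Bool) k l := by decide +kernel
  unfold row
  simp only [hA]
  refine ⟨?_, ?_, ?_, ?_, ?_, ?_, ?_, ?_, ?_, ?_, ?_⟩ <;>
    simp [Fin.sum_univ_succ] <;> ring_nf

theorem pure_sum (k : Fin 11) (f : Fin 11 → ℝ) :
    ∑ j, strat (Pi.single k 1) (e j) * f j = f k := by
  simp only [strat_e]
  rw [Finset.sum_eq_single k]
  · simp
  · intro j _ hj
    simp [Pi.single_eq_of_ne hj]
  · simp

theorem pure_mixed (k : Fin 11) : G0.IsMixed (strat (Pi.single k 1)) := by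
  apply mixed_strat
  · intro j
    by_cases h : j = k
    · subst h; simp
    · simp [Pi.single_eq_of_ne h]
  · simp

theorem zA_mixed : G0.IsMixed (strat zA) := by
  apply mixed_strat
  · intro k
    fin_cases k <;> simp [zA] <;> norm_num
  · simp [zA, Fin.sum_univ_succ]; norm_num

theorem zD_mixed : G0.IsMixed (strat zD) := by
  apply mixed_strat
  · intro k
    fin_cases k <;> simp [zD] <;> norm_num
  · simp [zD, Fin.sum_univ_succ]; norm_num

theorem zA_row (k : Fin 11) : 8 / 19 ≤ row zA k := by
  obtain ⟨h0, h1, h2, h3, h4, h5, h6, h7, h8, h9, h10⟩ := row_expand zA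
  fin_cases k
  · show _ ≤ row zA 0; rw [h0]; simp [zA]; norm_num
  · show _ ≤ row zA 1; rw [h1]; simp [zA]; norm_num
  · show _ ≤ row zA 2; rw [h2]; simp [zA]; norm_num
  · show _ ≤ row zA 3; rw [h3]; simp [zA]; norm_num
  · show _ ≤ row zA 4; rw [h4]; simp [zA]; norm_num
  · show _ ≤ row zA 5; rw [h5]; simp [zA]; norm_num
  · show _ ≤ row zA 6; rw [h6]; simp [zA]; norm_num
  · show _ ≤ row zA 7; rw [h7]; simp [zA]; norm_num
  · show _ ≤ row zA 8; rw [h8]; simp [zA]; norm_num
  · show _ ≤ row zA 9; rw [h9]; simp [zA]; norm_num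
  · show _ ≤ row zA 10; rw [h10]; simp [zA]; norm_num

theorem zD_row (k : Fin 11) : row zD k ≤ 8 / 19 := by
  obtain ⟨h0, h1, h2, h3, h4, h5, h6, h7, h8, h9, h10⟩ := row_expand zD
  fin_cases k
  · show row zD 0 ≤ _; rw [h0]; simp [zD]; norm_num
  · show row zD 1 ≤ _; rw [h1]; simp [zD]; norm_num
  · show row zD 2 ≤ _; rw [h2]; simp [zD]; norm_num
  · show row zD 3 ≤ _; rw [h3]; simp [zD]; norm_num
  · show row zD 4 ≤ _; rw [h4]; simp [zD]; norm_num
  · show row zD 5 ≤ _; rw [h5]; simp [zD]; norm_num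
  · show row zD 6 ≤ _; rw [h6]; simp [zD]; norm_num
  · show row zD 7 ≤ _; rw [h7]; simp [zD]; norm_num
  · show row zD 8 ≤ _; rw [h8]; simp [zD]; norm_num
  · show row zD 9 ≤ _; rw [h9]; simp [zD]; norm_num
  · show row zD 10 ≤ _; rw [h10]; simp [zD]; norm_num

/-- the equilibrium conditions in coordinates -/
theorem ne_rows {xd xa : G0.Path → ℝ} (h : G0.IsNE xd xa) :
    (∀ k, 8 / 19 ≤ row (fun l => xa (e l)) k) ∧ (∀ k, row (fun l => xd (e l)) k ≤ 8 / 19) := by
  obtain ⟨hd, ha, h1, h2⟩ := h
  have hda := mixed_sum xd hd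
  have haa := mixed_sum xa ha
  have lo : 8 / 19 ≤ G0.payoff xd xa := by
    refine le_trans ?_ (h1 _ zA_mixed)
    rw [payoff_eq]
    have : (fun l => strat zA (e l)) = zA := funext (strat_e zA)
    rw [this]
    calc (8 / 19 : ℝ) = ∑ k, xd (e k) * (8 / 19) := by rw [← Finset.sum_mul, hda, one_mul]
      _ ≤ ∑ k, xd (e k) * row zA k :=
        Finset.sum_le_sum (fun k _ => mul_le_mul_of_nonneg_left (zA_row k) (hd.1 _))
  have hi : G0.payoff xd xa ≤ 8 / 19 := by
    refine le_trans (h2 _ zD_mixed) ?_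
    rw [payoff_eq']
    have : (fun l => strat zD (e l)) = zD := funext (strat_e zD)
    rw [this]
    calc ∑ k, xa (e k) * row zD k ≤ ∑ k, xa (e k) * (8 / 19) :=
        Finset.sum_le_sum (fun k _ => mul_le_mul_of_nonneg_left (zD_row k) (ha.1 _))
      _ = 8 / 19 := by rw [← Finset.sum_mul, haa, one_mul]
  constructor
  · intro k
    refine le_trans lo ?_
    have := h2 _ (pure_mixed k)
    rw [payoff_eq (strat (Pi.single k 1)) xa, pure_sum] at this
    exact this
  · intro k
    refine le_trans ?_ hi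
    have := h1 _ (pure_mixed k)
    rw [payoff_eq' xd (strat (Pi.single k 1)), pure_sum] at this
    exact this

theorem markov_prod {x : G0.Path → ℝ} (h : G0.IsMarkovian x) :
    x (e 0) * x (e 5) = x (e 2) * x (e 3) := by
  obtain ⟨q, _, _, hq⟩ := h
  have hk : ∀ k : Fin 11, x (e k) = ∏ i : Fin 4, q (pts k i.castSucc) (pts k i.succ) :=
    fun k => hq (e k)
  rw [hk 0, hk 5, hk 2, hk 3]
  simp only [Fin.prod_univ_four]
  have a0 : pts 0 = ![0, 1, 5, 7, 9] := rfl
  have a5 : pts 5 = ![0, 2, 5, 8, 9] := rfl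
  have a2 : pts 2 = ![0, 1, 5, 8, 9] := rfl
  have a3 : pts 3 = ![0, 2, 5, 7, 9] := rfl
  rw [a0, a5, a2, a3]
  show q (0 : Fin 11) (1 : Fin 11) * q (1 : Fin 11) (5 : Fin 11) * q (5 : Fin 11) (7 : Fin 11) *
      q (7 : Fin 11) (9 : Fin 11) *
      (q (0 : Fin 11) (2 : Fin 11) * q (2 : Fin 11) (5 : Fin 11) * q (5 : Fin 11) (8 : Fin 11) *
      q (8 : Fin 11) (9 : Fin 11)) =
    q (0 : Fin 11) (1 : Fin 11) * q (1 : Fin 11) (5 : Fin 11) * q (5 : Fin 11) (8 : Fin 11) *
      q (8 : Fin 11) (9 : Fin 11) *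
      (q (0 : Fin 11) (2 : Fin 11) * q (2 : Fin 11) (5 : Fin 11) * q (5 : Fin 11) (7 : Fin 11) *
      q (7 : Fin 11) (9 : Fin 11))
  ring

theorem notMarkov {xd xa : G0.Path → ℝ} (h : G0.IsNE xd xa) :
    ¬ G0.IsMarkovian xd ∧ ¬ G0.IsMarkovian xa := by
  obtain ⟨ha, hd⟩ := ne_rows h
  constructor
  · intro hm
    have hp := markov_prod hm
    have hs := mixed_sum xd h.1
    have hn := fun k => h.1.1 (e k)
    generalize hY : (fun l => xd (e l)) = Y at hd
    have hY' : ∀ l, xd (e l) = Y l := fun l => congrFun hY l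
    simp only [hY'] at hp hs hn
    obtain ⟨h0, h1, h2, h3, h4, h5, h6, h7, h8, h9, h10⟩ := row_expand Y
    have r0 := hd 0
    have r1 := hd 1
    have r2 := hd 2
    have r3 := hd 3
    have r4 := hd 4
    have r5 := hd 5
    have r6 := hd 6
    have r7 := hd 7
    have r8 := hd 8
    have r9 := hd 9
    have r10 := hd 10
    rw [h0] at r0
    rw [h1] at r1
    rw [h2] at r2
    rw [h3] at r3
    rw [h4] at r4
    rw [h5] at r5
    rw [h6] at r6
    rw [h7] at r7
    rw [h8] at r8
    rw [h9] at r9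
    rw [h10] at r10
    have n0 := hn 0
    have n1 := hn 1
    have n2 := hn 2
    have n3 := hn 3
    have n4 := hn 4
    have n5 := hn 5
    have n6 := hn 6
    have n7 := hn 7
    have n8 := hn 8
    have n9 := hn 9
    have n10 := hn 10
    have hs' : Y 0 + Y 1 + Y 2 + Y 3 + Y 4 + Y 5 + Y 6 + Y 7 + Y 8 + Y 9 + Y 10 = 1 := by
      rw [← hs]; simp [Fin.sum_univ_succ]; ring_nf
    have y0 : Y 0 = 2 / 19 := by apply le_antisymm <;> linarith
    have y5 : Y 5 = 3 / 19 := by apply le_antisymm <;> linarith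
    have y2 : Y 2 = 1 / 19 := by apply le_antisymm <;> linarith
    have y3 : Y 3 = 2 / 19 := by apply le_antisymm <;> linarith
    rw [y0, y5, y2, y3] at hp
    norm_num at hp
  · intro hm
    have hp := markov_prod hm
    have hs := mixed_sum xa h.2.1
    have hn := fun k => h.2.1.1 (e k)
    generalize hY : (fun l => xa (e l)) = Y at ha
    have hY' : ∀ l, xa (e l) = Y l := fun l => congrFun hY l
    simp only [hY'] at hp hs hn
    obtain ⟨h0, h1, h2, h3, h4, h5, h6, h7, h8, h9, h10⟩ := row_expand Y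
    have r0 := ha 0
    have r1 := ha 1
    have r2 := ha 2
    have r3 := ha 3
    have r4 := ha 4
    have r5 := ha 5
    have r6 := ha 6
    have r7 := ha 7
    have r8 := ha 8
    have r9 := ha 9
    have r10 := ha 10
    rw [h0] at r0
    rw [h1] at r1
    rw [h2] at r2
    rw [h3] at r3
    rw [h4] at r4
    rw [h5] at r5
    rw [h6] at r6
    rw [h7] at r7
    rw [h8] at r8
    rw [h9] at r9
    rw [h10] at r10
    have n0 := hn 0
    have n1 := hn 1
    have n2 := hn 2
    have n3 := hn 3
    have n4 := hn 4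
    have n5 := hn 5
    have n6 := hn 6
    have n7 := hn 7
    have n8 := hn 8
    have n9 := hn 9
    have n10 := hn 10
    have hs' : Y 0 + Y 1 + Y 2 + Y 3 + Y 4 + Y 5 + Y 6 + Y 7 + Y 8 + Y 9 + Y 10 = 1 := by
      rw [← hs]; simp [Fin.sum_univ_succ]; ring_nf
    have y0 : Y 0 = 2 / 19 := by apply le_antisymm <;> linarith
    have y5 : Y 5 = 1 / 19 := by apply le_antisymm <;> linarith
    have y3 : Y 3 = 0 := by apply le_antisymm <;> linarith
    rw [y0, y5, y3] at hp
    norm_num at hp

/-- **Main result.** There is a layered graph for which in every Nash equilibrium of the game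
neither the defender's nor the attacker's strategy is Markovian. In particular the statement of
Q1 is false. -/
theorem result :
    (∃ G : LayeredGraph, ∀ xd xa : G.Path → ℝ, G.IsNE xd xa →
      ¬ G.IsMarkovian xd ∧ ¬ G.IsMarkovian xa) ∧
    ¬ ∀ G : LayeredGraph, ∃ xd xa : G.Path → ℝ, G.IsNE xd xa ∧ G.IsMarkovian xd ∧
      G.IsMarkovian xa := by
  refine ⟨⟨G0, fun xd xa h => notMarkov h⟩, fun h => ?_⟩
  obtain ⟨xd, xa, h1, h2, _⟩ := h G0
  exact (notMarkov h1).1 h2

end Pool.Agent.Results.MP_41928e_lc.NoMarkovian
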